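import Mathlib

set_option autoImplicit false

open Cardinal Order Set Filter

namespace Pool.Agent.Y568.CP

/-- A strictly increasing sequence of infinite cardinals `kap n` with
`(kap n)^ω ≤ kap (n+1)`. -/
class Sq where
  /-- the sequence -/
  kap : ℕ → Cardinal.{0}
  aleph0_le : ℵ₀ ≤ kap 0
  lt : ∀ n, kap n < kap (n + 1)
  pow : ∀ n, kap n ^ ℵ₀ ≤ kap (n + 1)

variable [Sq]

/-- the cardinals of the sequence -/
noncomputable def kap (n : ℕ) : Cardinal.{0} := Sq.kap n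

/-- the supremum of the sequence -/
noncomputable def mu : Cardinal.{0} := ⨆ n, kap n

theorem kap_lt_succ (n : ℕ) : kap n < kap (n + 1) := Sq.lt n

theorem kap_strictMono : StrictMono kap := strictMono_nat_of_lt_succ kap_lt_succ

theorem aleph0_le_kap (n : ℕ) : ℵ₀ ≤ kap n :=
  Sq.aleph0_le.trans (kap_strictMono.monotone (Nat.zero_le n))

theorem bdd_kap : BddAbove (range kap) := Cardinal.bddAbove_of_small

theorem kap_lt_mu (n : ℕ) : kap n < mu :=
  lt_of_lt_of_le (kap_lt_succ n) (le_ciSup bdd_kap (n + 1))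

theorem aleph0_le_mu : ℵ₀ ≤ mu := (aleph0_le_kap 0).trans (kap_lt_mu 0).le

theorem exists_lt_kap {c : Cardinal.{0}} (h : c < mu) : ∃ n, c < kap n :=
  exists_lt_of_lt_ciSup' h

theorem kap_ne_zero (n : ℕ) : kap n ≠ 0 :=
  (lt_of_lt_of_le aleph0_pos (aleph0_le_kap n)).ne'

theorem kap_pow_aleph0 (n : ℕ) : (kap n) ^ ℵ₀ ≤ kap (n + 1) := Sq.pow n

theorem cont_lt_mu : (2 : Cardinal.{0}) ^ ℵ₀ < mu :=
  lt_of_le_of_lt ((power_le_power_right (c := ℵ₀) ((nat_lt_aleph0 2).le.trans (aleph0_le_kap 0))).trans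
    (kap_pow_aleph0 0)) (kap_lt_mu 1)

/-- The set of values. -/
abbrev M : Type := mu.ord.ToType

/-- The set of indices. -/
abbrev Lam : Type := (succ mu).ord.ToType

theorem mk_M : #M = mu := by simp [M]

theorem mk_Lam : #Lam = succ mu := by simp [Lam]

theorem mk_Iic_Lam (x : Lam) : #(Iic x) ≤ mu := by
  have := mk_Iic_lt x (by simp [Lam]) (by rw [mk_Lam]; exact aleph0_le_mu.trans (le_succ mu))
  rw [mk_Lam] at this
  exact lt_succ_iff.mp this

theorem bounded_Lam (S : Set Lam) (hS : #S ≤ mu) : ∃ β : Lam, ∀ s ∈ S, s < β := by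
  by_contra hcon
  push Not at hcon
  have h1 : (univ : Set Lam) ⊆ ⋃ s ∈ S, Iic s := by
    intro β _
    obtain ⟨s, hs, hβ⟩ := hcon β
    simp only [mem_iUnion]
    exact ⟨s, hs, hβ⟩
  have h2 : #(univ : Set Lam) ≤ mu := by
    refine (mk_le_mk_of_subset h1).trans ?_
    refine (mk_biUnion_le _ _).trans ?_
    calc #S * ⨆ x : S, #(Iic x.1) ≤ mu * mu := by
          refine mul_le_mul' hS ?_
          exact ciSup_le' fun x => mk_Iic_Lam x.1
      _ = mu := mul_eq_self aleph0_le_mu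
  rw [mk_univ, mk_Lam] at h2
  exact absurd h2 (not_le_of_gt (lt_succ mu))

/-- pigeonhole -/
theorem pigeon {T : Type} (hT : #T ≤ mu) (φ : Lam → T) :
    ∃ t, ∀ β, ∃ α, β < α ∧ φ α = t := by
  by_contra hcon
  push Not at hcon
  choose B hB using hcon
  obtain ⟨β, hβ⟩ := bounded_Lam (range B) (mk_range_le.trans hT)
  exact hB (φ β) β (hβ _ (mem_range_self _)) rfl

theorem succ_kap_lt (n : ℕ) : succ (kap n) < mu := by
  have : succ (kap n) ≤ kap (n + 1) := succ_le_of_lt (kap_lt_succ n)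
  exact this.trans_lt (kap_lt_mu _)

/-- the element of `M` of rank `(kap n)^+` -/
noncomputable def b (n : ℕ) : M :=
  Ordinal.enum (α := M) (· < ·) ⟨(succ (kap n)).ord, by
    rw [Ordinal.type_toType]
    simpa using (succ_kap_lt n)⟩

theorem typein_b (n : ℕ) :
    Ordinal.typein (α := M) (· < ·) (b n) = (succ (kap n)).ord :=
  Ordinal.typein_enum (α := M) (· < ·) _

theorem card_Iio_b (n : ℕ) : #(Iio (b n)) = succ (kap n) := by
  have h : (Ordinal.typein (α := M) (· < ·) (b n)).card = #(Iio (b n)) :=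
    Ordinal.card_typein (b n)
  rw [← h, typein_b]
  simp

theorem card_Iio_lt_b {n : ℕ} {x : M} (hx : x < b n) : #(Iio x) ≤ kap n := by
  have h : (Ordinal.typein (α := M) (· < ·) x).card = #(Iio x) :=
    Ordinal.card_typein x
  rw [← h]
  have h2 : Ordinal.typein (α := M) (· < ·) x < Ordinal.typein (α := M) (· < ·) (b n) :=
    (Ordinal.typein_lt_typein (α := M) (· < ·)).2 hx
  rw [typein_b, lt_ord] at h2
  exact lt_succ_iff.mp h2

theorem card_Iic_lt_b {n : ℕ} {x : M} (hx : x < b n) : #(Iic x) ≤ kap n := by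
  have h : Iic x = Iio x ∪ {x} := by
    ext y; simp [le_iff_lt_or_eq, or_comm]
  rw [h]
  refine (mk_union_le _ _).trans ?_
  have h1 : #({x} : Set M) ≤ kap n := by
    simp only [mk_fintype, Fintype.card_unique, Nat.cast_one]
    exact one_lt_aleph0.le.trans (aleph0_le_kap n)
  calc #(Iio x) + #({x} : Set M) ≤ kap n + kap n := add_le_add (card_Iio_lt_b hx) h1
    _ = kap n := add_eq_self (aleph0_le_kap n)

/-- (P1): small subsets of `Iio (b n)` are bounded strictly below `b n`. -/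
theorem bounded_b {n : ℕ} (s : Set M) (hs : #s ≤ kap n) (hb : ∀ x ∈ s, x < b n) :
    ∃ y < b n, ∀ x ∈ s, x < y := by
  by_contra hcon
  push Not at hcon
  have h1 : (Iio (b n) : Set M) ⊆ ⋃ x ∈ s, Iic x := by
    intro y hy
    obtain ⟨x, hx, hyx⟩ := hcon y hy
    simp only [mem_iUnion]
    exact ⟨x, hx, hyx⟩
  have h2 : #(Iio (b n)) ≤ kap n := by
    refine (mk_le_mk_of_subset h1).trans ?_
    refine (mk_biUnion_le _ _).trans ?_
    calc #s * ⨆ x : s, #(Iic x.1) ≤ kap n * kap n := by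
          refine mul_le_mul' hs ?_
          exact ciSup_le' fun x => card_Iic_lt_b (hb x.1 x.2)
      _ = kap n := mul_eq_self (aleph0_le_kap n)
  rw [card_Iio_b] at h2
  exact absurd h2 (not_le_of_gt (lt_succ _))

theorem b_strictMono : StrictMono b := by
  intro m n hmn
  by_contra hcon
  push Not at hcon
  have h := mk_le_mk_of_subset (Iio_subset_Iio hcon)
  rw [card_Iio_b, card_Iio_b] at h
  have h2 : kap m < kap n := kap_strictMono hmn
  exact absurd h (not_le_of_gt (succ_lt_succ h2))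

/-- (P3) -/
theorem exists_lt_b (x : M) : ∃ m, x < b m := by
  have h : (Ordinal.typein (α := M) (· < ·) x) < mu.ord := by
    have := Ordinal.typein_lt_type (α := M) (· < ·) x
    rwa [Ordinal.type_toType] at this
  rw [lt_ord] at h
  obtain ⟨m, hm⟩ := exists_lt_kap h
  refine ⟨m, ?_⟩
  have h2 : Ordinal.typein (α := M) (· < ·) x < Ordinal.typein (α := M) (· < ·) (b m) := by
    rw [typein_b, lt_ord]
    exact hm.trans (lt_succ _)
  exact (Ordinal.typein_lt_typein (α := M) (· < ·)).1 h2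

/-- (P2) -/
theorem card_Iio_b_le (n : ℕ) : #(Iio (b n)) ≤ kap (n + 1) := by
  rw [card_Iio_b]; exact succ_le_of_lt (kap_lt_succ n)

/-- directedness of the product modulo finite sets -/
theorem directed (S : Set (ℕ → M)) (hS : #S ≤ mu) (hb : ∀ f ∈ S, ∀ n, f n < b n) :
    ∃ h : ℕ → M, (∀ n, h n < b n) ∧ ∀ f ∈ S, ∀ᶠ n in atTop, f n < h n := by
  have hS' : #S ≤ #M := by rw [mk_M]; exact hS
  obtain ⟨e⟩ := hS'
  have key : ∀ n, ∃ y < b n, ∀ x ∈ {x : M | ∃ f : S, (∃ m, m + 1 = n ∧ e f < b m) ∧ x = f.1 n},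
      x < y := by
    intro n
    refine bounded_b _ ?_ ?_
    · cases n with
      | zero =>
        have : {x : M | ∃ f : S, (∃ m, m + 1 = 0 ∧ e f < b m) ∧ x = f.1 0} = ∅ := by
          ext x; simp
        rw [this]; simp
      | succ m =>
        have h1 : {x : M | ∃ f : S, (∃ m', m' + 1 = m + 1 ∧ e f < b m') ∧ x = f.1 (m + 1)} ⊆
            (fun f : S => f.1 (m + 1)) '' (e ⁻¹' (Iio (b m))) := by
          rintro x ⟨f, ⟨m', hm', hf⟩, rfl⟩
          have : m' = m := by omega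
          subst this
          exact ⟨f, hf, rfl⟩
        refine (mk_le_mk_of_subset h1).trans (mk_image_le.trans ?_)
        refine (mk_preimage_of_injective _ _ e.injective).trans ?_
        exact card_Iio_b_le m
    · rintro x ⟨f, -, rfl⟩
      exact hb f.1 f.2 n
  choose h hh1 hh2 using key
  refine ⟨h, hh1, ?_⟩
  intro f hf
  obtain ⟨m, hm⟩ := exists_lt_b (e ⟨f, hf⟩)
  filter_upwards [eventually_ge_atTop (m + 1)] with n hn
  obtain ⟨k, rfl⟩ : ∃ k, n = k + 1 := ⟨n - 1, by omega⟩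
  refine hh2 (k + 1) _ ⟨⟨f, hf⟩, ⟨k, rfl, hm.trans_le (b_strictMono.monotone (by omega))⟩, rfl⟩

/-- the increasing sequence -/
theorem exists_seq : ∃ f : Lam → ℕ → M, (∀ α n, f α n < b n) ∧
    ∀ α β, α < β → ∀ᶠ n in atTop, f α n < f β n := by
  have step : ∀ (α : Lam) (prev : ∀ β : Lam, β < α → {h : ℕ → M // ∀ n, h n < b n}),
      ∃ h : {h : ℕ → M // ∀ n, h n < b n}, ∀ β (hβ : β < α),
        ∀ᶠ n in atTop, (prev β hβ).1 n < h.1 n := by
    intro α prev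
    obtain ⟨h, h1, h2⟩ := directed (range fun β : Iio α => (prev β.1 β.2).1)
      (mk_range_le.trans ((mk_le_mk_of_subset Iio_subset_Iic_self).trans (mk_Iic_Lam α))) (by
        rintro f ⟨β, rfl⟩ n
        exact (prev β.1 β.2).2 n)
    exact ⟨⟨h, h1⟩, fun β hβ => h2 _ ⟨⟨β, hβ⟩, rfl⟩⟩
  choose F hF using step
  let f : Lam → {h : ℕ → M // ∀ n, h n < b n} :=
    (wellFounded_lt : WellFounded ((· < ·) : Lam → Lam → Prop)).fix F
  have hf : ∀ α, f α = F α (fun β _ => f β) := fun α => WellFounded.fix_eq _ _ _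
  refine ⟨fun α => (f α).1, fun α => (f α).2, ?_⟩
  intro α β hαβ
  have := hF β (fun β _ => f β) α hαβ
  rw [← hf β] at this
  exact this


theorem cont_pow : ((2 : Cardinal.{0}) ^ ℵ₀) ^ ℵ₀ = 2 ^ ℵ₀ := by
  rw [← power_mul, aleph0_mul_aleph0]

theorem aleph0_le_cont : ℵ₀ ≤ (2 : Cardinal.{0}) ^ ℵ₀ := (cantor ℵ₀).le

omit [Sq] in
/-- arities -/
def Ar : ℕ ⊕ ℕ → Type
  | Sum.inl _ => Empty
  | Sum.inr _ => ℕ

/-- evaluation of formal terms -/
noncomputable def ev (G : (ℕ → M) → (ℕ → M)) : WType Ar → M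
  | WType.mk (Sum.inl n) _ => b n
  | WType.mk (Sum.inr n) c => G (fun k : ℕ => ev G (c k)) n

omit [Sq] in
theorem card_terms : #(WType Ar) ≤ (2 : Cardinal.{0}) ^ ℵ₀ := by
  have hc : ℵ₀ ≤ (2 : Cardinal.{0}) ^ ℵ₀ := (cantor ℵ₀).le
  apply WType.cardinalMk_le_of_le
  have h : ∀ a : ℕ ⊕ ℕ, ((2 : Cardinal.{0}) ^ ℵ₀) ^ #(Ar a) ≤ (2 : Cardinal.{0}) ^ ℵ₀ := by
    rintro (a | a)
    · simp only [Ar, mk_eq_zero, power_zero]
      exact one_lt_aleph0.le.trans hc
    · simp only [Ar, mk_nat]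
      rw [← power_mul, aleph0_mul_aleph0]
  calc (sum fun a : ℕ ⊕ ℕ => ((2 : Cardinal.{0}) ^ ℵ₀) ^ #(Ar a))
      ≤ sum fun _ : ℕ ⊕ ℕ => (2 : Cardinal.{0}) ^ ℵ₀ := sum_le_sum _ _ h
    _ = #(ℕ ⊕ ℕ) * (2 : Cardinal.{0}) ^ ℵ₀ := sum_const' _ _
    _ ≤ (2 : Cardinal.{0}) ^ ℵ₀ * (2 : Cardinal.{0}) ^ ℵ₀ := by
      refine mul_le_mul' ?_ le_rfl
      simp only [mk_sum, mk_nat, lift_aleph0, aleph0_add_aleph0]
      exact hc
    _ = (2 : Cardinal.{0}) ^ ℵ₀ := mul_eq_self hc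

/-- closure of a countable family under an infinitary operation -/
theorem exists_closed (G : (ℕ → M) → (ℕ → M)) :
    ∃ S : Set M, #S ≤ (2 : Cardinal.{0}) ^ ℵ₀ ∧ (∀ n, b n ∈ S) ∧
      ∀ h : ℕ → M, (∀ n, h n ∈ S) → ∀ n, G h n ∈ S := by
  refine ⟨range (ev G), mk_range_le.trans card_terms, ?_, ?_⟩
  · intro n
    exact ⟨WType.mk (Sum.inl n) (fun x => nomatch x), rfl⟩
  · intro h hh n
    choose w hw using hh
    refine ⟨WType.mk (Sum.inr n) w, ?_⟩
    have : h = fun k => ev G (w k) := by funext k; exact (hw k).symm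
    rw [this]
    rfl

/-- a least upper bound modulo finite sets -/
theorem exists_lub (f : Lam → ℕ → M) (hfb : ∀ α n, f α n < b n)
    (hinc : ∀ α β, α < β → ∀ᶠ n in atTop, f α n < f β n) :
    ∃ g : ℕ → M, (∀ α, ∀ᶠ n in atTop, f α n ≤ g n) ∧
      ∀ g' : ℕ → M, (∀ α, ∀ᶠ n in atTop, f α n ≤ g' n) → ∀ᶠ n in atTop, g n ≤ g' n := by
  by_contra hcon
  push Not at hcon
  have hex : ∀ g : ℕ → M, ∃ g' : ℕ → M, (∀ α, ∀ᶠ n in atTop, f α n ≤ g n) →
      (∀ α, ∀ᶠ n in atTop, f α n ≤ g' n) ∧ ¬ ∀ᶠ n in atTop, g n ≤ g' n := by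
    intro g
    by_cases hg : ∀ α, ∀ᶠ n in atTop, f α n ≤ g n
    · obtain ⟨g', h1, h2⟩ := hcon g hg
      exact ⟨g', fun _ => ⟨h1, by
        rw [Filter.not_eventually]; exact h2.mono (fun n hn => not_le.mpr hn)⟩⟩
    · exact ⟨g, fun h => absurd h hg⟩
  choose G hG using hex
  obtain ⟨S, hScard, hbS, hGS⟩ := exists_closed G
  -- minimal element of `S` above `x`
  have hmin : ∀ (α : Lam) (n : ℕ), ∃ s : M, s ∈ S ∧ f α n ≤ s ∧ ∀ t ∈ S, f α n ≤ t → s ≤ t := by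
    intro α n
    have hne : {t : M | t ∈ S ∧ f α n ≤ t}.Nonempty := ⟨b n, hbS n, (hfb α n).le⟩
    have wf : WellFounded ((· < ·) : M → M → Prop) := wellFounded_lt
    obtain ⟨s, hs, hs2⟩ := wf.has_min _ hne
    refine ⟨s, hs.1, hs.2, ?_⟩
    intro t ht1 ht2
    exact not_lt.mp (hs2 t ⟨ht1, ht2⟩)
  choose u hu1 hu2 hu3 using hmin
  -- pigeonhole
  have hT : #(ℕ → S) ≤ mu := by
    rw [← power_def, mk_nat]
    calc #S ^ ℵ₀ ≤ ((2 : Cardinal.{0}) ^ ℵ₀) ^ ℵ₀ := power_le_power_right hScard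
      _ = 2 ^ ℵ₀ := cont_pow
      _ ≤ mu := cont_lt_mu.le
  obtain ⟨t, ht⟩ := pigeon hT (fun α n => (⟨u α n, hu1 α n⟩ : S))
  let h : ℕ → M := fun n => (t n).1
  have hh : ∀ α, (fun n => (⟨u α n, hu1 α n⟩ : S)) = t → u α = h := by
    intro α hα
    funext n
    have := congrFun hα n
    simp only [h]
    rw [← this]
  have hUB : ∀ α, ∀ᶠ n in atTop, f α n ≤ h n := by
    intro β
    obtain ⟨α, hβα, hα⟩ := ht β
    filter_upwards [hinc β α hβα] with n hn
    rw [← hh α hα]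
    exact hn.le.trans (hu2 α n)
  obtain ⟨hUB', hnle⟩ := hG h hUB
  have hGmem : ∀ n, G h n ∈ S := hGS h (fun n => (t n).2)
  obtain ⟨β₀, -⟩ := bounded_Lam ∅ (by simp)
  obtain ⟨α, -, hα⟩ := ht β₀
  apply hnle
  filter_upwards [hUB' α] with n hn
  calc h n = u α n := by rw [hh α hα]
    _ ≤ G h n := hu3 α n _ (hGmem n) hn


/-- an exact upper bound modulo finite sets -/
theorem exists_eub (f : Lam → ℕ → M) (hfb : ∀ α n, f α n < b n)
    (hinc : ∀ α β, α < β → ∀ᶠ n in atTop, f α n < f β n) :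
    ∃ g : ℕ → M, (∀ n, g n ≤ b n) ∧ (∀ α, ∀ᶠ n in atTop, f α n < g n) ∧
      ∀ h : ℕ → M, (∀ᶠ n in atTop, h n < g n) → ∃ α, ∀ᶠ n in atTop, h n < f α n := by
  obtain ⟨g₀, hg1, hg2⟩ := exists_lub f hfb hinc
  let g : ℕ → M := fun n => min (g₀ n) (b n)
  have hgle : ∀ g' : ℕ → M, (∀ α, ∀ᶠ n in atTop, f α n ≤ g' n) → ∀ᶠ n in atTop, g n ≤ g' n := by
    intro g' hg'
    filter_upwards [hg2 g' hg'] with n hn
    exact (min_le_left _ _).trans hn
  have hlt : ∀ α, ∀ᶠ n in atTop, f α n < g n := by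
    intro α
    obtain ⟨β, hβ⟩ := bounded_Lam {α} (by simpa using one_lt_aleph0.le.trans aleph0_le_mu)
    have hαβ := hβ α rfl
    filter_upwards [hinc α β hαβ, hg1 β] with n h1 h2
    exact lt_min (h1.trans_le h2) (hfb α n)
  refine ⟨g, fun n => min_le_right _ _, hlt, ?_⟩
  intro h hh
  by_contra hcon
  push Not at hcon
  have hT : #(Set ℕ) ≤ mu := by
    rw [mk_set, mk_nat]; exact cont_lt_mu.le
  obtain ⟨t, ht⟩ := pigeon hT (fun α => {n | f α n ≤ h n})
  have htinf : ∃ᶠ n in atTop, n ∈ t := by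
    obtain ⟨β₀, -⟩ := bounded_Lam ∅ (by simp)
    obtain ⟨α, -, hα⟩ := ht β₀
    have := hcon α
    rw [← hα]
    exact this
  classical
  let g' : ℕ → M := fun n => if n ∈ t then h n else g n
  have hUB : ∀ α, ∀ᶠ n in atTop, f α n ≤ g' n := by
    intro β
    obtain ⟨α, hβα, hα⟩ := ht β
    filter_upwards [hinc β α hβα, hlt α] with n h1 h2
    simp only [g']
    split_ifs with hn
    · rw [← hα] at hn
      exact h1.le.trans hn
    · exact (h1.trans h2).le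
  have h3 := hgle g' hUB
  obtain ⟨n, hn, h4, h5⟩ := (htinf.and_eventually (h3.and hh)).exists
  simp only [g', hn, if_true] at h4
  exact absurd h5 (not_lt.mpr h4)


/-- every subset of `Iio x` of size at most `kap j` is bounded strictly below `x` -/
def Cofin (j : ℕ) (x : M) : Prop :=
  ∀ s : Set M, #s ≤ kap j → (∀ y ∈ s, y < x) → ∃ z < x, ∀ y ∈ s, y < z

theorem eventually_cofin (f : Lam → ℕ → M)
    (hinc : ∀ α β, α < β → ∀ᶠ n in atTop, f α n < f β n) (g : ℕ → M)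
    (hfg : ∀ α, ∀ᶠ n in atTop, f α n < g n)
    (hg : ∀ h : ℕ → M, (∀ᶠ n in atTop, h n < g n) → ∃ α, ∀ᶠ n in atTop, h n < f α n) (j : ℕ) :
    ∀ᶠ n in atTop, Cofin j (g n) := by
  classical
  by_contra hcon
  rw [Filter.not_eventually] at hcon
  obtain ⟨α₀, -⟩ := bounded_Lam ∅ (by simp)
  have hs : ∀ n, ∃ s : Set M, #s ≤ kap j ∧ s.Nonempty ∧ (f α₀ n < g n → ∀ y ∈ s, y < g n) ∧
      (f α₀ n < g n → ¬ Cofin j (g n) → ∀ z < g n, ∃ y ∈ s, z ≤ y) := by
    intro n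
    by_cases hn : f α₀ n < g n ∧ ¬ Cofin j (g n)
    · have h2 := hn.2
      unfold Cofin at h2
      push Not at h2
      obtain ⟨s, hs1, hs2, hs3⟩ := h2
      obtain ⟨y, hy, -⟩ := hs3 _ hn.1
      exact ⟨s, hs1, ⟨y, hy⟩, fun _ => hs2, fun _ _ => hs3⟩
    · refine ⟨{f α₀ n}, ?_, ⟨_, rfl⟩, ?_, ?_⟩
      · rw [mk_singleton]; exact one_lt_aleph0.le.trans (aleph0_le_kap j)
      · rintro h y rfl; exact h
      · intro h1 h2; exact absurd ⟨h1, h2⟩ hn
  choose s hs1 hs2 hs3 hs4 using hs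
  have hI : #(∀ n, s n) ≤ mu := by
    rw [mk_pi]
    calc prod (fun n => #(s n)) ≤ prod (fun _ : ℕ => kap j) := prod_le_prod _ _ hs1
      _ = kap j ^ ℵ₀ := by simp
      _ ≤ kap (j + 1) := kap_pow_aleph0 j
      _ ≤ mu := (kap_lt_mu _).le
  have hα : ∀ ψ : (∀ n, s n), ∃ α, ∀ᶠ n in atTop, (ψ n).1 < f α n := by
    intro ψ
    apply hg
    filter_upwards [hfg α₀] with n hn
    exact hs3 n hn _ (ψ n).2
  choose A hA using hα
  obtain ⟨β, hβ⟩ := bounded_Lam (range A) (mk_range_le.trans hI)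
  have hψ : ∀ n, ∃ y : s n, f α₀ n < g n → ¬ Cofin j (g n) → f β n < g n → f β n ≤ y.1 := by
    intro n
    by_cases h : f α₀ n < g n ∧ ¬ Cofin j (g n) ∧ f β n < g n
    · obtain ⟨y, hy1, hy2⟩ := hs4 n h.1 h.2.1 _ h.2.2
      exact ⟨⟨y, hy1⟩, fun _ _ _ => hy2⟩
    · obtain ⟨y, hy⟩ := hs2 n
      exact ⟨⟨y, hy⟩, fun h1 h2 h3 => absurd ⟨h1, h2, h3⟩ h⟩
  choose ψ hψ using hψ
  obtain ⟨n, h1, h2, h3, h4, h5⟩ := (hcon.and_eventually
    ((hfg α₀).and ((hfg β).and ((hA ψ).and (hinc _ _ (hβ _ (mem_range_self ψ))))))).exists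
  exact lt_irrefl _ ((hψ n h2 h1 h3).trans_lt (h4.trans h5))

theorem Cofin.exists_lt {j : ℕ} {x : M} (h : Cofin j x) : ∃ z, z < x := by
  obtain ⟨z, hz, -⟩ := h ∅ (by simp) (by simp)
  exact ⟨z, hz⟩

/-- The scale. -/
theorem exists_scale : ∃ (F : Lam → ℕ → M) (g : ℕ → M), (∀ α k, F α k < g k) ∧
    (∀ α β, α < β → ∀ᶠ k in atTop, F α k < F β k) ∧
    (∀ h : ℕ → M, (∀ k, h k < g k) → ∃ α, ∀ᶠ k in atTop, h k < F α k) ∧
    (∀ (k : ℕ) (s : Set M), #s ≤ max ℵ₀ #(List {x : M // ∃ i < k, x < g i}) →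
      (∀ y ∈ s, y < g k) → ∃ z < g k, ∀ y ∈ s, y < z) := by
  classical
  obtain ⟨f, hfb, hinc⟩ := exists_seq
  obtain ⟨g, hgb, hfg, hg⟩ := exists_eub f hfb hinc
  have hev := eventually_cofin f hinc g hfg hg
  have hN : ∀ j, ∃ N, ∀ n ≥ N, Cofin j (g n) := fun j => eventually_atTop.mp (hev j)
  choose N hN using hN
  obtain ⟨φ, hφ0, hφs⟩ : ∃ φ : ℕ → ℕ, φ 0 = N 0 ∧
      ∀ k, φ (k + 1) = max (φ k + 1) (N (φ k + 1)) :=
    ⟨fun k => Nat.rec (motive := fun _ => ℕ) (N 0) (fun _ p => max (p + 1) (N (p + 1))) k,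
      rfl, fun _ => rfl⟩
  have hφ : StrictMono φ := strictMono_nat_of_lt_succ (fun k => by
    rw [hφs]; exact lt_of_lt_of_le (Nat.lt_succ_self _) (le_max_left _ _))
  have hc0 : Cofin 0 (g (φ 0)) := hN 0 _ (by rw [hφ0])
  have hcs : ∀ k, Cofin (φ k + 1) (g (φ (k + 1))) := fun k => hN _ _ (by
    rw [hφs]; exact le_max_right _ _)
  have hpos : ∀ k, ∃ z, z < g (φ k) := by
    intro k
    cases k with
    | zero => exact hc0.exists_lt
    | succ k => exact (hcs k).exists_lt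
  choose z hz using hpos
  refine ⟨fun α k => if f α (φ k) < g (φ k) then f α (φ k) else z k, fun k => g (φ k), ?_, ?_, ?_,
    ?_⟩
  · intro α k
    simp only
    split_ifs with h
    · exact h
    · exact hz k
  · intro α β hαβ
    have h1 := hφ.tendsto_atTop.eventually (hinc α β hαβ)
    have h2 := hφ.tendsto_atTop.eventually (hfg α)
    have h3 := hφ.tendsto_atTop.eventually (hfg β)
    filter_upwards [h1, h2, h3] with k h1 h2 h3
    simp only [h2, h3, if_true]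
    exact h1
  · intro h hh
    obtain ⟨β₀, -⟩ := bounded_Lam ∅ (by simp)
    have hex : ∀ n : ℕ, ∃ y : M, (∀ k : ℕ, φ k = n → y = h k) ∧ ((¬ ∃ k : ℕ, φ k = n) → y = f β₀ n) := by
      intro n
      by_cases hn : ∃ k : ℕ, φ k = n
      · obtain ⟨k, rfl⟩ := hn
        exact ⟨h k, fun k' hk' => by rw [hφ.injective hk'], fun h => absurd ⟨k, rfl⟩ h⟩
      · exact ⟨f β₀ n, fun k hk => absurd ⟨k, hk⟩ hn, fun _ => rfl⟩
    choose h' hh1 hh2 using hex
    have hh' : ∀ k, h' (φ k) = h k := fun k => hh1 _ k rfl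
    obtain ⟨α, hα⟩ := hg h' (by
      filter_upwards [hfg β₀] with n hn
      by_cases hk : ∃ k : ℕ, φ k = n
      · obtain ⟨k, rfl⟩ := hk
        rw [hh']; exact hh k
      · rw [hh2 n hk]; exact hn)
    refine ⟨α, ?_⟩
    filter_upwards [hφ.tendsto_atTop.eventually hα, hφ.tendsto_atTop.eventually (hfg α)]
      with k h1 h2
    simp only [h2, if_true]
    rwa [hh'] at h1
  · intro k s hs hsg
    cases k with
    | zero =>
      refine hc0 s (hs.trans ?_) hsg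
      have : IsEmpty {x : M // ∃ i < 0, x < g (φ i)} := ⟨fun x => by
        obtain ⟨i, hi, -⟩ := x.2
        exact absurd hi (Nat.not_lt_zero _)⟩
      refine max_le (aleph0_le_kap 0) ((mk_list_le_max _).trans ?_)
      simp [aleph0_le_kap 0]
    | succ k =>
      refine hcs k s (hs.trans ?_) hsg
      refine max_le (aleph0_le_kap _) ((mk_list_le_max _).trans (max_le (aleph0_le_kap _) ?_))
      have hsub : {x : M | ∃ i < k + 1, x < g (φ i)} ⊆ Iio (b (φ k)) := by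
        rintro x ⟨i, hi, hx⟩
        exact hx.trans_le ((hgb _).trans (b_strictMono.monotone (hφ.monotone (by omega))))
      exact (mk_le_mk_of_subset hsub).trans (card_Iio_b_le _)

end Pool.Agent.Y568.CP
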