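import Mathlib
import Pool.Agent.Y568.CP.Scale

set_option autoImplicit false

open Cardinal Order Set Filter

namespace Pool.Agent.Y568.CP

/-- A cardinal `τ` which is the supremum of a sequence of smaller cardinals and satisfies
`ν^ω < τ` for `ν < τ` is the supremum of a sequence as in `Sq`. -/
theorem exists_Sq (τ : Cardinal.{0}) (c : ℕ → Cardinal.{0}) (h0 : ℵ₀ < τ) (hc : ∀ n, c n < τ)
    (hτ : τ = ⨆ n, c n) (hcl : ∀ ν < τ, ν ^ ℵ₀ < τ) : ∃ i : Sq, @mu i = τ := by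
  have step : ∀ (n : ℕ) (ν : {ν : Cardinal.{0} // ν < τ}), ∃ ν' : {ν : Cardinal.{0} // ν < τ},
      ν.1 < ν'.1 ∧ ν.1 ^ ℵ₀ ≤ ν'.1 ∧ c n ≤ ν'.1 := by
    intro n ν
    have h1 : ν.1 < ⨆ n, c n := by rw [← hτ]; exact ν.2
    obtain ⟨m, hm⟩ := exists_lt_of_lt_ciSup' h1
    refine ⟨⟨max (c m) (max (ν.1 ^ ℵ₀) (c n)), max_lt (hc m) (max_lt (hcl _ ν.2) (hc n))⟩, ?_, ?_, ?_⟩
    · exact hm.trans_le (le_max_left _ _)
    · exact (le_max_left _ _).trans (le_max_right _ _)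
    · exact (le_max_right _ _).trans (le_max_right _ _)
  choose S hS1 hS2 hS3 using step
  let k : ℕ → {ν : Cardinal.{0} // ν < τ} := fun n =>
    Nat.rec (motive := fun _ => {ν : Cardinal.{0} // ν < τ}) ⟨ℵ₀, h0⟩ (fun n ν => S n ν) n
  have hk : ∀ n, k (n + 1) = S n (k n) := fun n => rfl
  let i : Sq :=
    { kap := fun n => (k n).1
      aleph0_le := le_rfl
      lt := fun n => by rw [hk]; exact hS1 _ _
      pow := fun n => by rw [hk]; exact hS2 _ _ }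
  refine ⟨i, le_antisymm ?_ ?_⟩
  · exact ciSup_le' fun n => (k n).2.le
  · rw [hτ]
    refine ciSup_le' fun n => ?_
    have h1 : c n ≤ (k (n + 1)).1 := by rw [hk]; exact hS3 _ _
    exact h1.trans (le_ciSup (@bdd_kap i) (n + 1))

/-- Hausdorff's formula for countable exponents, in the form needed. -/
theorem succ_pow (ν : Cardinal.{0}) (hν : ℵ₀ ≤ ν) (h : ν ^ ℵ₀ = ν) :
    (succ ν) ^ ℵ₀ = succ ν := by
  apply le_antisymm
  swap
  · calc succ ν = (succ ν) ^ (1 : Cardinal.{0}) := (power_one _).symm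
      _ ≤ (succ ν) ^ ℵ₀ := Cardinal.power_le_power_left
        (ne_of_gt ((bot_le : (0 : Cardinal.{0}) ≤ ν).trans_lt (lt_succ ν))) one_lt_aleph0.le
  let T : Type := (succ ν).ord.ToType
  have hT : #T = succ ν := by simp [T]
  have hIic : ∀ x : T, #(Iic x) ≤ ν := by
    intro x
    have := mk_Iic_lt x (by simp [T]) (by rw [hT]; exact hν.trans (le_succ ν))
    rw [hT] at this
    exact lt_succ_iff.mp this
  have hbd : ∀ f : ℕ → T, ∃ β : T, ∀ n, f n ≤ β := by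
    intro f
    by_contra hcon
    push Not at hcon
    have h1 : (univ : Set T) ⊆ ⋃ n, Iic (f n) := by
      intro β _
      obtain ⟨n, hn⟩ := hcon β
      simp only [mem_iUnion]
      exact ⟨n, hn.le⟩
    have h2 : #(univ : Set T) ≤ ν := by
      refine (mk_le_mk_of_subset h1).trans ((mk_iUnion_le _).trans ?_)
      calc #ℕ * ⨆ n, #(Iic (f n)) ≤ ν * ν := by
            refine mul_le_mul' ?_ (ciSup_le' fun n => hIic _)
            rw [mk_nat]; exact hν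
        _ = ν := mul_eq_self hν
    rw [mk_univ, hT] at h2
    exact absurd h2 (not_le_of_gt (lt_succ ν))
  have h1 : (univ : Set (ℕ → T)) ⊆ ⋃ β : T, {f | ∀ n, f n ≤ β} := by
    intro f _
    obtain ⟨β, hβ⟩ := hbd f
    simp only [mem_iUnion]
    exact ⟨β, hβ⟩
  have h2 : ∀ β : T, #{f : ℕ → T | ∀ n, f n ≤ β} ≤ ν := by
    intro β
    have e : {f : ℕ → T | ∀ n, f n ≤ β} ↪ (ℕ → Iic β) :=
      ⟨fun f n => ⟨f.1 n, f.2 n⟩, fun f g hfg => by
        apply Subtype.ext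
        funext n
        exact congrArg Subtype.val (congrFun hfg n)⟩
    calc #{f : ℕ → T | ∀ n, f n ≤ β} ≤ #(ℕ → Iic β) := ⟨e⟩
      _ = #(Iic β) ^ ℵ₀ := by rw [← power_def, mk_nat]
      _ ≤ ν ^ ℵ₀ := power_le_power_right (hIic β)
      _ = ν := h
  calc (succ ν) ^ ℵ₀ = #(ℕ → T) := by rw [← power_def, mk_nat, hT]
    _ = #(univ : Set (ℕ → T)) := mk_univ.symm
    _ ≤ #(⋃ β : T, {f : ℕ → T | ∀ n, f n ≤ β} : Set (ℕ → T)) := mk_le_mk_of_subset h1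
    _ ≤ #T * ⨆ β : T, #{f : ℕ → T | ∀ n, f n ≤ β} := mk_iUnion_le _
    _ ≤ succ ν * succ ν := by
      refine mul_le_mul' hT.le (ciSup_le' fun β => (h2 β).trans (le_succ ν))
    _ = succ ν := mul_eq_self (hν.trans (le_succ ν))

theorem iter_pow (κ : Cardinal.{0}) (hκ : ℵ₀ ≤ κ) (h : κ ^ ℵ₀ = κ) (n : ℕ) :
    ℵ₀ ≤ succ^[n] κ ∧ (succ^[n] κ) ^ ℵ₀ = succ^[n] κ := by
  induction n with
  | zero => exact ⟨hκ, h⟩
  | succ n ih =>
    rw [Function.iterate_succ_apply']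
    exact ⟨ih.1.trans (le_succ _), succ_pow _ ih.1 ih.2⟩

theorem iter_lt (κ : Cardinal.{0}) (n : ℕ) : succ^[n] κ < ⨆ n : ℕ, succ^[n] κ := by
  have h1 : succ^[n] κ < succ^[n + 1] κ := by
    rw [Function.iterate_succ_apply']; exact lt_succ _
  exact h1.trans_le (le_ciSup (f := fun n : ℕ => succ^[n] κ) Cardinal.bddAbove_of_small (n + 1))

theorem iter_closed (κ : Cardinal.{0}) (hκ : ℵ₀ ≤ κ) (h : κ ^ ℵ₀ = κ) (ν : Cardinal.{0})
    (hν : ν < ⨆ n : ℕ, succ^[n] κ) : ν ^ ℵ₀ < ⨆ n : ℕ, succ^[n] κ := by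
  obtain ⟨n, hn⟩ := exists_lt_of_lt_ciSup' hν
  calc ν ^ ℵ₀ ≤ (succ^[n] κ) ^ ℵ₀ := power_le_power_right hn.le
    _ = succ^[n] κ := (iter_pow κ hκ h n).2
    _ < _ := iter_lt κ n

end Pool.Agent.Y568.CP
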